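import Pool.Agent.Run7.h668.TK.Iface

/-! Project TK (helper668), piece CN2 (helper13). -/

set_option autoImplicit false

namespace Pool.Agent.Run7.h13.TK.CN2

open Polynomial Pool.Agent.Run7.h668.TK

/-- coefficients of `(1 - z)^(-r)` -/
def dd : ℕ → ℤ → ℚ
  | 0, t => if t = 0 then 1 else 0
  | r + 1, t => if 0 ≤ t then ((t.toNat + r).choose r : ℚ) else 0

theorem dd_neg (r : ℕ) (t : ℤ) (h : t < 0) : dd r t = 0 := by
  cases r with
  | zero => simp only [dd]; rw [if_neg (by omega)]
  | succ r => simp only [dd]; rw [if_neg (by omega)]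

theorem dd_pascal (r : ℕ) (t : ℤ) : dd (r + 1) t - dd (r + 1) (t - 1) = dd r t := by
  rcases lt_trichotomy t 0 with h | h | h
  · rw [dd_neg _ _ h, dd_neg _ _ (by omega), dd_neg _ _ h]; simp
  · subst h
    rw [dd_neg (r + 1) (0 - 1) (by norm_num)]
    cases r with
    | zero => simp [dd]
    | succ r => simp [dd]
  · obtain ⟨n, rfl⟩ : ∃ n : ℕ, t = (n : ℤ) + 1 := ⟨(t - 1).toNat, by omega⟩
    have e1 : ((n : ℤ) + 1).toNat = n + 1 := by omega
    have e2 : ((n : ℤ) + 1 - 1).toNat = n := by omega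
    cases r with
    | zero =>
      simp only [dd]
      rw [if_pos (by omega), if_pos (by omega), if_neg (by omega)]
      simp
    | succ r =>
      simp only [dd]
      rw [if_pos (by omega), if_pos (by omega), if_pos (by omega), e1, e2]
      have := Nat.choose_succ_succ (n + 1 + r) r
      have e3 : n + 1 + (r + 1) = (n + 1 + r) + 1 := by ring
      have e4 : n + (r + 1) = n + 1 + r := by ring
      rw [e3, e4]
      have h5 : (((n + 1 + r) + 1).choose (r + 1) : ℚ) = ((n + 1 + r).choose r : ℚ) +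
          ((n + 1 + r).choose (r + 1) : ℚ) := by exact_mod_cast this
      rw [h5]
      ring

theorem ssum_sub (L : List ℕ) (F G : ℕ → ℕ → ℚ) :
    ssum L (fun s b => F s b - G s b) = ssum L F - ssum L G := by
  induction L generalizing F G with
  | nil => simp [ssum]
  | cons a L ih =>
    simp only [ssum]
    rw [ih F G, ih (fun s b => F (s + 1) (b + a)) (fun s b => G (s + 1) (b + a))]
    ring

theorem ssum_zero (L : List ℕ) : ssum L (fun _ _ => 0) = 0 := by
  induction L with
  | nil => simp [ssum]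
  | cons a L ih => simp [ssum, ih]

theorem hom_neg (L : List ℕ) (t : ℤ) (h : t < 0) : hom L t = 0 := by
  induction L generalizing t with
  | nil => simp only [hom]; rw [if_neg (by omega)]
  | cons A L ih =>
    simp only [hom]
    exact Finset.sum_eq_zero (fun e _ => ih _ (by omega))

theorem hom_step (L : List ℕ) (A : ℕ) (t : ℤ) :
    hom (A :: L) t - hom (A :: L) (t - 1) = hom L t - hom L (t - A - 1) := by
  simp only [hom]
  rw [Finset.sum_range_succ' (fun e : ℕ => hom L (t - e)),
    Finset.sum_range_succ (fun e : ℕ => hom L (t - 1 - e))]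
  have : ∑ k ∈ Finset.range A, hom L (t - ((k + 1 : ℕ) : ℤ)) =
      ∑ k ∈ Finset.range A, hom L (t - 1 - (k : ℤ)) := by
    refine Finset.sum_congr rfl (fun k _ => ?_)
    congr 1
    push_cast
    ring
  rw [this]
  have e : t - 1 - (A : ℤ) = t - A - 1 := by ring
  rw [e]
  simp

/-- the generating function -/
def HH (N : ℕ) (r : ℕ) (L : List ℕ) (t : ℤ) : ℚ :=
  ssum L (fun s b => dd r (t - (N : ℤ) * (b : ℤ) - (s : ℤ)))

theorem HH_pascal (N r : ℕ) (L : List ℕ) (t : ℤ) :
    HH N (r + 1) L t - HH N (r + 1) L (t - 1) = HH N r L t := by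
  unfold HH
  rw [← ssum_sub]
  congr 1
  funext s b
  rw [← dd_pascal r]
  congr 2
  ring

theorem HH_cons (N r a : ℕ) (L : List ℕ) (t : ℤ) :
    HH N r (a :: L) t = HH N r L t - HH N r L (t - (N : ℤ) * a - 1) := by
  unfold HH
  simp only [ssum]
  congr 2
  funext s b
  congr 1
  push_cast
  ring

theorem HH_neg (N r : ℕ) (L : List ℕ) (t : ℤ) (h : t < 0) : HH N r L t = 0 := by
  unfold HH
  rw [← ssum_zero L]
  congr 1
  funext s b
  refine dd_neg _ _ ?_
  have h1 : (0 : ℤ) ≤ (N : ℤ) * (b : ℤ) := by positivity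
  have h2 : (0 : ℤ) ≤ (s : ℤ) := by positivity
  omega

theorem hom_eq (N : ℕ) (L : List ℕ) (t : ℤ) :
    ((hom (L.map (N * ·)) t : ℤ) : ℚ) = HH N L.length L t := by
  induction L generalizing t with
  | nil =>
    simp only [List.map_nil, hom, HH, ssum, List.length_nil, dd]
    by_cases h : t = 0 <;> simp [h]
  | cons a L ih =>
    have key : ∀ t : ℤ, ((hom ((a :: L).map (N * ·)) t : ℤ) : ℚ) - HH N (L.length + 1) (a :: L) t
        = ((hom ((a :: L).map (N * ·)) (t - 1) : ℤ) : ℚ)
          - HH N (L.length + 1) (a :: L) (t - 1) := by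
      intro t
      have h1 := HH_pascal N L.length (a :: L) t
      rw [HH_cons N L.length a L t, ← ih, ← ih] at h1
      have h2 := hom_step (L.map (N * ·)) (N * a) t
      have h3 : ((hom ((a :: L).map (N * ·)) t : ℤ) : ℚ)
          - ((hom ((a :: L).map (N * ·)) (t - 1) : ℤ) : ℚ)
          = ((hom (L.map (N * ·)) t : ℤ) : ℚ) - ((hom (L.map (N * ·)) (t - (N : ℤ) * a - 1) : ℤ) : ℚ) := by
        have h2' : ((hom ((N * a) :: (L.map (N * ·))) t : ℤ) : ℚ)
          - ((hom ((N * a) :: (L.map (N * ·))) (t - 1) : ℤ) : ℚ)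
          = ((hom (L.map (N * ·)) t : ℤ) : ℚ)
            - ((hom (L.map (N * ·)) (t - ((N * a : ℕ) : ℤ) - 1) : ℤ) : ℚ) := by
          exact_mod_cast h2
        rw [List.map_cons, h2']
        push_cast
        rfl
      linarith
    have hneg : ∀ t : ℤ, t < 0 → ((hom ((a :: L).map (N * ·)) t : ℤ) : ℚ)
        - HH N (L.length + 1) (a :: L) t = 0 := by
      intro t ht
      rw [hom_neg _ _ ht, HH_neg _ _ _ _ ht]
      simp
    have hall : ∀ n : ℕ, ((hom ((a :: L).map (N * ·)) ((n : ℤ) - 1) : ℤ) : ℚ)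
        - HH N (L.length + 1) (a :: L) ((n : ℤ) - 1) = 0 := by
      intro n
      induction n with
      | zero => exact hneg _ (by norm_num)
      | succ n ihn =>
        rw [key]
        have e : ((n + 1 : ℕ) : ℤ) - 1 - 1 = (n : ℤ) - 1 := by push_cast; ring
        rw [e]
        exact ihn
    have hfin : ((hom ((a :: L).map (N * ·)) t : ℤ) : ℚ)
        - HH N (L.length + 1) (a :: L) t = 0 := by
      rcases lt_or_ge t 0 with h | h
      · exact hneg t h
      · have := hall (t.toNat + 1)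
        have e : ((t.toNat + 1 : ℕ) : ℤ) - 1 = t := by omega
        rw [e] at this
        exact this
    rw [List.length_cons]
    linarith

theorem t_CN2 : S_CN2 := by
  intro ℓ N t hℓ
  obtain ⟨n, hn⟩ : ∃ n, ℓ.length = n + 2 := ⟨ℓ.length - 2, by omega⟩
  rw [Int.cast_sub, hom_eq, hom_eq, hn, HH_pascal]
  unfold HH
  congr 1
  funext s b
  simp only [dd]
  have e : n + 2 - 2 = n := by omega
  rw [e]
  by_cases h : N * b + s ≤ t
  · have h' : (N : ℤ) * (b : ℤ) + (s : ℤ) ≤ (t : ℤ) := by exact_mod_cast h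
    have e2 : ((t : ℤ) - (N : ℤ) * (b : ℤ) - (s : ℤ)).toNat = t - N * b - s := by
      have h3 : ((t - N * b - s : ℕ) : ℤ) = (t : ℤ) - (N : ℤ) * (b : ℤ) - (s : ℤ) := by
        rw [Nat.cast_sub (by omega), Nat.cast_sub (by omega)]
        push_cast
        ring
      rw [← h3, Int.toNat_natCast]
    rw [if_pos (by omega), if_pos h, e2]
  · have h' : ¬ (N : ℤ) * (b : ℤ) + (s : ℤ) ≤ (t : ℤ) := by exact_mod_cast h
    rw [if_neg (by omega), if_neg h]

end Pool.Agent.Run7.h13.TK.CN2
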