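import Pool.Agent.Run7.h668.TK.Iface

/-! Project TK (helper668), piece VAL (helper13). -/

set_option autoImplicit false

namespace Pool.Agent.Run7.h13.TK

open Polynomial Pool.Agent.Run7.h668.TK

theorem ssum_sum {ι : Type} (T : Finset ι) (L : List ℕ) (F : ι → ℕ → ℕ → ℚ) :
    ssum L (fun s b => ∑ i ∈ T, F i s b) = ∑ i ∈ T, ssum L (F i) := by
  induction L generalizing F with
  | nil => simp [ssum]
  | cons a L ih =>
    simp only [ssum, ih, Finset.sum_sub_distrib]

theorem ssum_mul (L : List ℕ) (F : ℕ → ℕ → ℚ) (r : ℚ) :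
    ssum L (fun s b => F s b * r) = ssum L F * r := by
  induction L generalizing F with
  | nil => simp [ssum]
  | cons a L ih =>
    simp only [ssum, ih, sub_mul]

theorem ssum_congr' (L : List ℕ) (F G : ℕ → ℕ → ℚ)
    (h : ∀ s, s ≤ L.length → ∀ b, F s b = G s b) : ssum L F = ssum L G := by
  induction L generalizing F G with
  | nil => simpa [ssum] using h 0 (by simp) 0
  | cons a L ih =>
    simp only [ssum]
    rw [ih F G (fun s hs b => h s (by simp; omega) b),
      ih (fun s b => F (s + 1) (b + a)) (fun s b => G (s + 1) (b + a))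
        (fun s hs b => h (s + 1) (by simp; omega) (b + a))]

theorem t_VAL : S_WCO → S_VAL := by
  intro hW c c' ℓ q N D hD1 hD2
  set L : List ℕ := ℓ ++ [c, c'] with hL
  set W : BB := WW c c' ℓ with hWdef
  set B : ℕ := max W.natDegree L.length + 1 with hB
  have hev : W.eval 1 = ∑ s0 ∈ Finset.range B, W.coeff s0 := by
    rw [Polynomial.eval_eq_sum_range' (n := B) (by omega)]
    simp
  have hco : ∀ m b : ℕ, ((W.eval 1).coeff m).coeff b = ssum L (fun s b' =>
      ∑ s0 ∈ Finset.range B, (if s = s0 ∧ b' = b then (fpoly (ℓ.length + 2) s).coeff m else 0)) := by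
    intro m b
    rw [hev, ssum_sum, Polynomial.finsetSum_coeff, Polynomial.finsetSum_coeff]
    exact Finset.sum_congr rfl (fun s0 _ => hW c c' ℓ s0 m b)
  have hstep : ∑ m ∈ Finset.range (D + 1), (∑ b ∈ Finset.range q,
      ((W.eval 1).coeff m).coeff b * ((q - b : ℕ) : ℚ) ^ m) * (N : ℚ) ^ m
      = ssum L (fun s b' => ∑ m ∈ Finset.range (D + 1), (∑ b ∈ Finset.range q,
        (∑ s0 ∈ Finset.range B, (if s = s0 ∧ b' = b then (fpoly (ℓ.length + 2) s).coeff m else 0))
          * ((q - b : ℕ) : ℚ) ^ m) * (N : ℚ) ^ m) := by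
    rw [ssum_sum]
    refine Finset.sum_congr rfl (fun m _ => ?_)
    rw [ssum_mul, ssum_sum]
    congr 1
    refine Finset.sum_congr rfl (fun b _ => ?_)
    rw [ssum_mul, hco]
  rw [hstep]
  refine ssum_congr' L _ _ (fun s hs b' => ?_)
  have hsB : s ∈ Finset.range B := by
    rw [Finset.mem_range]; omega
  have h1 : ∀ m b : ℕ, (∑ s0 ∈ Finset.range B,
      (if s = s0 ∧ b' = b then (fpoly (ℓ.length + 2) s).coeff m else 0))
      = if b' = b then (fpoly (ℓ.length + 2) s).coeff m else 0 := by
    intro m b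
    by_cases hb : b' = b
    · simp only [hb, and_true, if_true]
      rw [Finset.sum_ite_eq]
      simp [hsB]
    · simp [hb]
  simp only [h1]
  by_cases hq : b' < q
  · simp only [hq, if_true]
    rw [Polynomial.eval_eq_sum_range' (n := D + 1) (by have := hD2 s; omega)]
    refine Finset.sum_congr rfl (fun m _ => ?_)
    have : ∑ b ∈ Finset.range q, (if b' = b then (fpoly (ℓ.length + 2) s).coeff m else 0)
        * ((q - b : ℕ) : ℚ) ^ m = (fpoly (ℓ.length + 2) s).coeff m * ((q - b' : ℕ) : ℚ) ^ m := by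
      rw [Finset.sum_eq_single b']
      · simp
      · intro b _ hb
        rw [if_neg (fun h => hb h.symm), zero_mul]
      · intro h
        exact absurd (Finset.mem_range.2 hq) h
    rw [this, mul_pow]
    ring
  · simp only [hq, if_false]
    refine Finset.sum_eq_zero (fun m _ => ?_)
    rw [Finset.sum_eq_zero, zero_mul]
    intro b hb
    have : b < q := Finset.mem_range.1 hb
    rw [if_neg (by omega), zero_mul]

end Pool.Agent.Run7.h13.TK
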