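import Pool.Agent.Run7.h668.TK.Iface

/-! Project TK (helper668), piece WCN (helper13). -/

set_option autoImplicit false

namespace Pool.Agent.Run7.h13.TK

open Polynomial Pool.Agent.Run7.h668.TK

theorem t_WCN : S_INS → S_WCN := by
  intro hI c c' ℓ hc hc' hℓ
  induction ℓ with
  | nil =>
    have e : WW c c' [] = st [] [c, c'] := by
      have h1 : (tt 1 c) * (tt 1 c') = tt 2 (c + c') := by
        simp only [tt, pow_add, map_mul]
        ring
      have h2 : gx [c, c'] = 1 - (tt 1 c' + tt 1 c) + tt 2 (c + c') := by
        have e1 : c + c' - c = c' := by omega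
        have e2 : c + c' - c' = c := by omega
        simp only [gx, List.map_cons, List.map_nil, List.sum_cons, List.sum_nil, add_zero,
          List.length_cons, List.length_nil, zero_add, e1, e2]
        norm_num
      have h3 : st [] [c, c'] = gx [c, c'] := by
        simp [st]
      rw [h3, h2, ← h1]
      simp only [WW]
      ring
    rw [e]
    refine AddSubmonoid.subset_closure ⟨[], [c, c'], ⟨by simp, by simp, ?_, by simp, by simp⟩, rfl⟩
    intro a ha
    simp only [List.mem_cons, List.not_mem_nil, or_false] at ha
    rcases ha with rfl | rfl <;> assumption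
  | cons a ℓ ih =>
    have h := hI (ℓ.length + 2) (c + c' + ℓ.sum) a (hℓ a (by simp)) _
      (ih (fun x hx => hℓ x (by simp [hx])))
    have e1 : (a :: ℓ).length + 2 = ℓ.length + 2 + 1 := by simp
    have e2 : c + c' + (a :: ℓ).sum = c + c' + ℓ.sum + a := by simp; ring
    rw [e1, e2]
    exact h

end Pool.Agent.Run7.h13.TK
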